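import Mathlib

set_option autoImplicit false

open PowerSeries Finset

namespace Pool.Agent.Results.MP_773328_co.Parity

/-- The formal power series `F(z) = ∑_{k ≥ 0} (-1)^k z^(2k+1) / (k! (k+1)! (2k+1))`
(for odd `m = 2k+1` one has `m / 2 = k`). -/
noncomputable def F : PowerSeries ℚ :=
  PowerSeries.mk fun m =>
    if m % 2 = 1 then
      (-1) ^ (m / 2) / ((Nat.factorial (m / 2) : ℚ) * (Nat.factorial (m / 2 + 1) : ℚ) * (m : ℚ))
    else 0

/-- The integer `n! [z^n] F`. -/
def f (n : ℕ) : ℤ := if n % 2 = 1 then (-1) ^ (n / 2) * (catalan (n / 2) : ℤ) else 0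

lemma f_even {n : ℕ} (h : n % 2 = 0) : f n = 0 := by
  unfold f; rw [if_neg (by omega)]

lemma fact_mul_coeff_F (n : ℕ) : (n.factorial : ℚ) * coeff n F = (f n : ℚ) := by
  unfold F f
  rw [PowerSeries.coeff_mk]
  by_cases h : n % 2 = 1
  · rw [if_pos h, if_pos h]
    obtain ⟨k, rfl⟩ : ∃ k, n = 2 * k + 1 := ⟨n / 2, by omega⟩
    have hk : (2 * k + 1) / 2 = k := by omega
    rw [hk]
    have h1 : ((k : ℚ) + 1) * (catalan k : ℚ) = (Nat.centralBinom k : ℚ) := by
      exact_mod_cast succ_mul_catalan_eq_centralBinom k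
    have h2 : (Nat.centralBinom k : ℚ) * (k.factorial : ℚ) * (k.factorial : ℚ)
        = ((2 * k).factorial : ℚ) := by
      have := Nat.choose_mul_factorial_mul_factorial (n := 2 * k) (k := k) (by omega)
      rw [show 2 * k - k = k by omega] at this
      rw [Nat.centralBinom_eq_two_mul_choose]
      exact_mod_cast this
    have hk0 : (k.factorial : ℚ) ≠ 0 := by exact_mod_cast k.factorial_ne_zero
    have hk1 : ((k : ℚ) + 1) ≠ 0 := by positivity
    have hk2 : (2 * (k : ℚ) + 1) ≠ 0 := by positivity
    rw [Nat.factorial_succ (2 * k), Nat.factorial_succ k]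
    push_cast
    rw [← h2, ← h1]
    field_simp
  · rw [if_neg h, if_neg h]; simp

/-- The integers `a n`, defined by the recursion that comes from `A' (1 - F) = F'`. -/
def a : ℕ → ℤ
  | 0 => 0
  | n + 1 => f (n + 1) + ∑ i : Fin n, (Nat.choose n i : ℤ) * f (n - i) * a (i + 1)
  decreasing_by exact Nat.succ_lt_succ i.2

lemma a_succ (n : ℕ) :
    a (n + 1) = f (n + 1) + ∑ i ∈ range n, (Nat.choose n i : ℤ) * f (n - i) * a (i + 1) := by
  rw [a, ← Fin.sum_univ_eq_sum_range (fun i => (Nat.choose n i : ℤ) * f (n - i) * a (i + 1))]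

/-- The exponential generating function of `a`. -/
noncomputable def B : PowerSeries ℚ := PowerSeries.mk fun n => (a n : ℚ) / n.factorial

lemma ode_B : derivative ℚ B * (1 - F) = derivative ℚ F := by
  ext n
  rw [mul_sub, mul_one, map_sub, coeff_mul]
  have hfac : ∀ m : ℕ, (m.factorial : ℚ) ≠ 0 := fun m => by exact_mod_cast m.factorial_ne_zero
  have hcB : ∀ m : ℕ, coeff m (derivative ℚ B) = (a (m + 1) : ℚ) / m.factorial := by
    intro m
    rw [coeff_derivative, B, coeff_mk, Nat.factorial_succ]
    have h1 : ((m : ℚ) + 1) ≠ 0 := by positivity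
    have h2 := hfac m
    push_cast
    field_simp
  have hcF : ∀ m : ℕ, coeff m F = (f m : ℚ) / m.factorial := by
    intro m
    rw [← fact_mul_coeff_F]
    have h2 := hfac m
    field_simp
  have hcF' : coeff n (derivative ℚ F) = (f (n + 1) : ℚ) / n.factorial := by
    rw [coeff_derivative, hcF, Nat.factorial_succ]
    have h1 : ((n : ℚ) + 1) ≠ 0 := by positivity
    have h2 := hfac n
    push_cast
    field_simp
  rw [hcF', hcB]
  have hsum : ∑ p ∈ antidiagonal n, coeff p.1 (derivative ℚ B) * coeff p.2 F
      = (∑ i ∈ range n, (Nat.choose n i : ℚ) * (f (n - i) : ℚ) * (a (i + 1) : ℚ))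
        / n.factorial := by
    rw [Finset.Nat.sum_antidiagonal_eq_sum_range_succ_mk, Finset.sum_range_succ]
    have hz : f (n - n) = 0 := by simp [f]
    simp only [hcB, hcF, hz]
    rw [Finset.sum_div]
    simp only [Int.cast_zero, zero_div, mul_zero, add_zero]
    refine Finset.sum_congr rfl fun i hi => ?_
    have hi' : i ≤ n := (Finset.mem_range.mp hi).le
    have h := Nat.choose_mul_factorial_mul_factorial hi'
    have h' : (Nat.choose n i : ℚ) * (i.factorial : ℚ) * ((n - i).factorial : ℚ)
        = (n.factorial : ℚ) := by exact_mod_cast h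
    have h1 := hfac i
    have h2 := hfac (n - i)
    have h3 := hfac n
    rw [← h'] at h3 ⊢
    have h4 : (Nat.choose n i : ℚ) ≠ 0 := by
      intro h0; apply h3; rw [h0]; ring
    field_simp
  rw [hsum, a_succ]
  push_cast
  have h3 := hfac n
  field_simp
  ring

lemma constantCoeff_F : constantCoeff F = 0 := by
  rw [← coeff_zero_eq_constantCoeff_apply, F, coeff_mk]; simp

lemma ode_log : derivative ℚ (-logOf (1 - F)) * (1 - F) = derivative ℚ F := by
  have hs : HasSubst (-F) := HasSubst.of_constantCoeff_zero' (by simp [constantCoeff_F])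
  have h1 : (1 - F) - 1 = -F := by ring
  rw [logOf_eq, h1, map_neg, derivative_subst hs, deriv_log]
  set G : PowerSeries ℚ := PowerSeries.mk fun n ↦ algebraMap ℚ ℚ ((-1 : ℚ) ^ n) with hG
  have hGX : G * (1 + X) = 1 := by
    ext n
    rw [mul_add, mul_one, map_add]
    rcases n with _ | n
    · simp [hG]
    · rw [coeff_succ_mul_X, hG, coeff_mk, coeff_mk, coeff_one]
      simp [pow_succ]
  have hsub : G.subst (-F) * (1 - F) = 1 := by
    have : (G * (1 + X)).subst (-F) = (1 : PowerSeries ℚ).subst (-F) := by rw [hGX]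
    rw [subst_mul hs, subst_add hs, subst_X hs] at this
    have hone : (1 : PowerSeries ℚ).subst (-F) = (1 : PowerSeries ℚ) := by
      rw [← coe_substAlgHom hs]; exact map_one _
    rw [hone] at this
    rw [sub_eq_add_neg, this]
  rw [map_neg]
  calc -(G.subst (-F) * -(derivative ℚ F)) * (1 - F)
      = (G.subst (-F) * (1 - F)) * derivative ℚ F := by ring
    _ = derivative ℚ F := by rw [hsub, one_mul]

lemma B_eq : B = -logOf (1 - F) := by
  have hc : constantCoeff (1 - F) = 1 := by simp [constantCoeff_F]
  have hne : (1 - F) ≠ 0 := by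
    intro h
    rw [h] at hc
    simp at hc
  apply PowerSeries.derivative.ext
  · exact mul_right_cancel₀ hne (ode_B.trans ode_log.symm)
  · rw [map_neg, constantCoeff_logOf hc, ← coeff_zero_eq_constantCoeff_apply, B, coeff_mk]
    simp [a]

/-! Parity of the Catalan numbers. -/

lemma two_eq_zero : (2 : ZMod 2) = 0 := by decide

lemma catalan_even_index (m : ℕ) (hm : 0 < m) : ((catalan (2 * m) : ℕ) : ZMod 2) = 0 := by
  obtain ⟨m, rfl⟩ : ∃ k, m = k + 1 := ⟨m - 1, by omega⟩
  rw [show 2 * (m + 1) = (2 * m + 1) + 1 by ring, catalan_succ']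
  push_cast
  refine Finset.sum_involution (fun p _ => (p.2, p.1)) ?_ ?_ ?_ ?_
  · rintro ⟨i, j⟩ _
    have : (catalan i : ZMod 2) * catalan j + catalan j * catalan i
        = 2 * ((catalan i : ZMod 2) * catalan j) := by ring
    simpa [two_eq_zero] using this
  · rintro ⟨i, j⟩ h _ heq
    simp only [Finset.HasAntidiagonal.mem_antidiagonal, Prod.mk.injEq] at h heq
    omega
  · rintro ⟨i, j⟩ h
    simp only [Finset.HasAntidiagonal.mem_antidiagonal] at h ⊢
    omega
  · rintro ⟨i, j⟩ _
    rfl

lemma catalan_odd_index (m : ℕ) :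
    ((catalan (2 * m + 1) : ℕ) : ZMod 2) = ((catalan m : ℕ) : ZMod 2) := by
  rw [catalan_succ']
  push_cast
  have hmem : ((m, m) : ℕ × ℕ) ∈ antidiagonal (2 * m) := by
    rw [Finset.HasAntidiagonal.mem_antidiagonal]; ring
  rw [← Finset.add_sum_erase _ _ hmem]
  have hz : ∑ p ∈ (antidiagonal (2 * m)).erase (m, m),
      (catalan p.1 : ZMod 2) * (catalan p.2 : ZMod 2) = 0 := by
    refine Finset.sum_involution (fun p _ => (p.2, p.1)) ?_ ?_ ?_ ?_
    · rintro ⟨i, j⟩ _
      have : (catalan i : ZMod 2) * catalan j + catalan j * catalan i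
          = 2 * ((catalan i : ZMod 2) * catalan j) := by ring
      simpa [two_eq_zero] using this
    · rintro ⟨i, j⟩ h _ heq
      simp only [mem_erase, Finset.HasAntidiagonal.mem_antidiagonal, Prod.mk.injEq, ne_eq] at h heq
      omega
    · rintro ⟨i, j⟩ h
      simp only [mem_erase, Finset.HasAntidiagonal.mem_antidiagonal, Prod.mk.injEq, ne_eq] at h ⊢
      omega
    · rintro ⟨i, j⟩ _
      rfl
  rw [hz, add_zero]
  have : ∀ x : ZMod 2, x * x = x := by decide
  exact this _

lemma odd_iff_zmod (m : ℤ) : Odd m ↔ (m : ZMod 2) = 1 := by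
  rw [← ZMod.intCast_eq_one_iff_odd]

lemma catalan_parity (n : ℕ) : ((catalan n : ℕ) : ZMod 2) = 1 ↔ ∃ k, n + 1 = 2 ^ k := by
  induction n using Nat.strong_induction_on with
  | _ n ih =>
    rcases Nat.even_or_odd' n with ⟨m, rfl | rfl⟩
    · rcases Nat.eq_zero_or_pos m with rfl | hm
      · simp only [mul_zero, catalan_zero, Nat.cast_one, zero_add, true_iff]
        exact ⟨0, by norm_num⟩
      · rw [catalan_even_index m hm]
        constructor
        · intro h; exact absurd h (by decide)
        · rintro ⟨k, hk⟩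
          rcases k with _ | k
          · simp at hk; omega
          · rw [pow_succ] at hk; omega
    · rw [catalan_odd_index, ih m (by omega)]
      constructor
      · rintro ⟨k, hk⟩
        exact ⟨k + 1, by rw [pow_succ]; omega⟩
      · rintro ⟨k, hk⟩
        rcases k with _ | k
        · simp at hk
        · exact ⟨k, by rw [pow_succ] at hk; omega⟩

lemma f_parity (n : ℕ) (hn : 0 < n) : (f n : ZMod 2) = 1 ↔ ∃ k, n + 1 = 2 ^ k := by
  unfold f
  have h1 : (-1 : ZMod 2) = 1 := by decide
  by_cases h : n % 2 = 1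
  · rw [if_pos h]
    push_cast
    rw [h1, one_pow, one_mul, catalan_parity]
    constructor
    · rintro ⟨k, hk⟩
      exact ⟨k + 1, by rw [pow_succ]; omega⟩
    · rintro ⟨k, hk⟩
      rcases k with _ | k
      · simp at hk; omega
      · exact ⟨k, by rw [pow_succ] at hk; omega⟩
  · rw [if_neg h]
    constructor
    · intro h; exact absurd h (by decide)
    · rintro ⟨k, hk⟩
      rcases k with _ | k
      · simp at hk; omega
      · rw [pow_succ] at hk; omega

lemma zmod_two_cases (x : ZMod 2) : x = 0 ∨ x = 1 := by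
  revert x; decide

/-- Parity of the binomial coefficient `C(n, 2^j - 1)`. -/
lemma choose_parity (j : ℕ) : ∀ n : ℕ,
    ((Nat.choose n (2 ^ j - 1) : ℕ) : ZMod 2) = 1 ↔ 2 ^ j ∣ n + 1 := by
  induction j with
  | zero => intro n; simp
  | succ j ih =>
    intro n
    have hp : 0 < 2 ^ j := by positivity
    have : Fact (Nat.Prime 2) := ⟨Nat.prime_two⟩
    have h := Choose.choose_modEq_choose_mod_mul_choose_div_nat (n := n) (k := 2 ^ (j + 1) - 1)
      (p := 2)
    rw [← ZMod.natCast_eq_natCast_iff] at h
    rw [h]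
    have e1 : (2 ^ (j + 1) - 1) % 2 = 1 := by rw [pow_succ]; omega
    have e2 : (2 ^ (j + 1) - 1) / 2 = 2 ^ j - 1 := by rw [pow_succ]; omega
    rw [e1, e2]
    push_cast
    rcases Nat.mod_two_eq_zero_or_one n with h0 | h0
    · rw [h0]
      constructor
      · intro hc; simp at hc
      · rintro ⟨c, hc⟩
        rw [pow_succ] at hc
        have : n + 1 = 2 * (2 ^ j * c) := by rw [hc]; ring
        omega
    · rw [h0]
      simp only [Nat.choose_self, Nat.cast_one, one_mul]
      rw [ih (n / 2)]
      constructor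
      · rintro ⟨c, hc⟩
        refine ⟨c, ?_⟩
        rw [pow_succ]
        have : 2 ^ j * 2 * c = 2 * (2 ^ j * c) := by ring
        omega
      · rintro ⟨c, hc⟩
        refine ⟨c, ?_⟩
        rw [pow_succ] at hc
        have : 2 ^ j * 2 * c = 2 * (2 ^ j * c) := by ring
        omega

lemma a_parity (n : ℕ) (hn : 0 < n) :
    (a n : ZMod 2) = 1 ↔ ((∃ k, n + 1 = 2 ^ k) ∨ n = 2) := by
  induction n using Nat.strong_induction_on with
  | _ n ih =>
    obtain ⟨N, rfl⟩ : ∃ N, n = N + 1 := ⟨n - 1, by omega⟩
    -- a term with `i < N` is nonzero only in special cases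
    set t : ℕ → ZMod 2 := fun i => ((Nat.choose N i : ℕ) : ZMod 2) * (f (N - i) : ZMod 2)
      * (a (i + 1) : ZMod 2) with ht
    have hsum : (a (N + 1) : ZMod 2) = (f (N + 1) : ZMod 2) + ∑ i ∈ range N, t i := by
      rw [a_succ]; push_cast; rfl
    have hterm : ∀ i < N, t i = 1 ↔ (∃ s, 1 ≤ s ∧ N + 1 = 2 ^ s) ∧ (i = 0 ∨ i + 1 = N) := by
      intro i hi
      have hmul : t i = 1 ↔ (((Nat.choose N i : ℕ) : ZMod 2) = 1 ∧ (f (N - i) : ZMod 2) = 1
          ∧ (a (i + 1) : ZMod 2) = 1) := by
        have : ∀ x y z : ZMod 2, x * y * z = 1 ↔ x = 1 ∧ y = 1 ∧ z = 1 := by decide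
        exact this _ _ _
      rw [hmul]
      rw [f_parity (N - i) (by omega), ih (i + 1) (by omega) (by omega)]
      have hch : Nat.choose N i = Nat.choose N (N - i) := (Nat.choose_symm hi.le).symm
      rw [hch]
      constructor
      · rintro ⟨h1, ⟨j, hj⟩, h3⟩
        have hNi : N - i = 2 ^ j - 1 := by omega
        rw [hNi, choose_parity] at h1
        have hj1 : 1 ≤ j := by
          rcases j with _ | j
          · simp at hj; omega
          · omega
        obtain ⟨c, hc⟩ := h1
        -- i + 1 = N + 2 - 2^j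
        obtain ⟨j, rfl⟩ : ∃ j', j = j' + 1 := ⟨j - 1, by omega⟩
        rcases h3 with ⟨k, hk⟩ | h3
        · rcases j with _ | j
          · -- N - i = 1
            have : i + 1 = N := by simp at hNi; omega
            refine ⟨⟨k, ?_, ?_⟩, Or.inr this⟩
            · rcases k with _ | k
              · simp at hk
              · omega
            · omega
          · -- divisible by 4
            have h4 : (2 : ℕ) ^ (j + 1 + 1) = 4 * 2 ^ j := by rw [pow_succ, pow_succ]; ring
            rw [h4] at hj hc hNi
            have hc' : N + 1 = 4 * (2 ^ j * c) := by rw [hc]; ring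
            rcases k with _ | _ | k
            · simp at hk
            · have hi0 : i = 0 := by simpa using hk
              subst hi0
              refine ⟨⟨j + 1 + 1, by omega, ?_⟩, Or.inl rfl⟩
              rw [h4]; omega
            · exfalso
              have h4' : (2 : ℕ) ^ (k + 1 + 1) = 4 * 2 ^ k := by rw [pow_succ, pow_succ]; ring
              rw [h4'] at hk
              omega
        · -- i = 1
          exfalso
          have hi1 : i = 1 := by omega
          subst hi1
          rw [pow_succ] at hj hc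
          have hc' : N + 1 = 2 * (2 ^ j * c) := by rw [hc]; ring
          omega
      · rintro ⟨⟨s, hs1, hs⟩, hi0 | hi1⟩
        · subst hi0
          rw [Nat.sub_zero]
          have : N = 2 ^ s - 1 := by omega
          refine ⟨?_, ⟨s, by omega⟩, Or.inl ⟨1, by norm_num⟩⟩
          rw [this, choose_parity]
          exact ⟨1, by omega⟩
        · have hNi : N - i = 2 ^ 1 - 1 := by omega
          rw [hNi, choose_parity]
          refine ⟨?_, ⟨1, by norm_num⟩, Or.inl ⟨s, by omega⟩⟩
          rw [hs]; exact pow_dvd_pow 2 hs1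
    have hterm0 : ∀ i < N, ¬ ((∃ s, 1 ≤ s ∧ N + 1 = 2 ^ s) ∧ (i = 0 ∨ i + 1 = N)) → t i = 0 := by
      intro i hi h
      rcases zmod_two_cases (t i) with h0 | h1
      · exact h0
      · exact absurd ((hterm i hi).mp h1) h
    by_cases hp : ∃ s, 1 ≤ s ∧ N + 1 = 2 ^ s
    · obtain ⟨s, hs1, hs⟩ := hp
      rcases Nat.lt_or_ge N 2 with hN | hN
      · -- N + 1 = 2
        have hN1 : N = 1 := by
          rcases s with _ | s
          · omega
          · rw [pow_succ] at hs
            omega
        subst hN1
        constructor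
        · intro _; exact Or.inr rfl
        · intro _
          have h2 : a 2 = 1 := by
            rw [a_succ, Finset.sum_range_one, a_succ]
            simp [f]
          rw [h2]; simp
      · -- N ≥ 2: the sum has exactly two nonzero terms
        have hs2 : 2 ≤ s := by
          rcases s with _ | _ | s
          · omega
          · simp at hs; omega
          · omega
        obtain ⟨s, rfl⟩ : ∃ s', s = s' + 2 := ⟨s - 2, by omega⟩
        have h4 : (2 : ℕ) ^ (s + 2) = 4 * 2 ^ s := by rw [pow_succ, pow_succ]; ring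
        rw [h4] at hs
        have hN3 : 3 ≤ N := by
          have : 1 ≤ 2 ^ s := Nat.one_le_two_pow
          omega
        have hs' : ∃ s, 1 ≤ s ∧ N + 1 = 2 ^ s := ⟨s + 2, by omega, by rw [h4]; omega⟩
        have ht0 : t 0 = 1 := (hterm 0 (by omega)).mpr ⟨hs', Or.inl rfl⟩
        have ht1 : t (N - 1) = 1 := (hterm (N - 1) (by omega)).mpr ⟨hs', Or.inr (by omega)⟩
        have hsum2 : ∑ i ∈ range N, t i = t 0 + t (N - 1) := by
          refine Finset.sum_eq_add_of_mem 0 (N - 1) (by simp; omega) (by simp; omega) (by omega) ?_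
          intro i hi hne
          have hi' := Finset.mem_range.mp hi
          refine hterm0 i hi' ?_
          rintro ⟨_, h | h⟩
          · exact hne.1 h
          · exact hne.2 (by omega)
        rw [hsum, hsum2, ht0, ht1, f_even (by omega)]
        constructor
        · intro h
          exfalso
          revert h
          decide
        · rintro (⟨k, hk⟩ | h)
          · exfalso
            rcases k with _ | k
            · simp at hk
            · rw [pow_succ] at hk; omega
          · omega
    · have hsum0 : ∑ i ∈ range N, t i = 0 := by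
        refine Finset.sum_eq_zero fun i hi => ?_
        exact hterm0 i (Finset.mem_range.mp hi) (fun h => hp h.1)
      rw [hsum, hsum0, add_zero, f_parity _ (by omega)]
      constructor
      · intro h; exact Or.inl h
      · rintro (h | h)
        · exact h
        · exfalso
          apply hp
          exact ⟨1, le_refl _, by omega⟩

/-- There is an integer sequence `a` whose exponential generating function is `-log (1 - F)`,
and for `n ≥ 3` the term `a n` is odd exactly when `n + 1` is a power of `2`. -/
theorem result :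
    ∃ a : ℕ → ℤ,
      (PowerSeries.mk fun n => (a n : ℚ) / (Nat.factorial n : ℚ)) = -PowerSeries.logOf (1 - F) ∧
      ∀ n : ℕ, 3 ≤ n → (Odd (a n) ↔ ∃ k : ℕ, n + 1 = 2 ^ k) := by
  refine ⟨a, B_eq, fun n hn => ?_⟩
  rw [odd_iff_zmod, a_parity n (by omega)]
  constructor
  · rintro (h | h)
    · exact h
    · omega
  · intro h; exact Or.inl h

end Pool.Agent.Results.MP_773328_co.Parity
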